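import Pool.Agent.Helper11.PV.St

/-!
# Project PV, module LLI: the `L¹-L²` inequality on the biased cube
-/

set_option autoImplicit false

namespace Pool.Agent.Helper37.PV

open Finset Pool.Agent.Helper82.CN Pool.Agent.Helper11.PV

/-- the mean over the first bit -/
private noncomputable def TT (p : ℝ) {N : ℕ} (F : (Fin (N + 1) → Bool) → ℝ) (ω : Fin N → Bool) : ℝ :=
  (1 - p) * F (Fin.cons false ω) + p * F (Fin.cons true ω)

/-- the martingale difference of the first bit -/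
private noncomputable def dd (p : ℝ) {N : ℕ} (F : (Fin (N + 1) → Bool) → ℝ) (ω : Fin (N + 1) → Bool) : ℝ :=
  F ω - TT p F (Fin.tail ω)

private lemma dd_cons (p : ℝ) {N : ℕ} (F : (Fin (N + 1) → Bool) → ℝ) (b : Bool) (ω : Fin N → Bool) :
    dd p F (Fin.cons b ω) = F (Fin.cons b ω) - TT p F ω := by
  unfold dd
  rw [Fin.tail_cons]

private lemma EE_TT (p : ℝ) {N : ℕ} (F : (Fin (N + 1) → Bool) → ℝ) : EE p (TT p F) = EE p F := by
  rw [EE_succ]
  unfold TT
  rw [EE_add, EE_mul_left, EE_mul_left]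

/-- variance decomposition -/
private lemma VV_succ (p : ℝ) {N : ℕ} (F : (Fin (N + 1) → Bool) → ℝ) :
    VV p F = EE p (fun ω => dd p F ω ^ 2) + VV p (TT p F) := by
  unfold VV
  rw [EE_TT, EE_succ, EE_succ p (fun ω => dd p F ω ^ 2)]
  simp only [dd_cons]
  rw [← EE_mul_left, ← EE_mul_left, ← EE_mul_left, ← EE_mul_left, ← EE_add, ← EE_add, ← EE_add]
  congr 1
  funext ω
  unfold TT
  ring

private lemma dd_DD_zero (p : ℝ) {N : ℕ} (F : (Fin (N + 1) → Bool) → ℝ) (b : Bool) (ω : Fin N → Bool) :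
    DD (dd p F) 0 (Fin.cons b ω) = DD F 0 (Fin.cons b ω) := by
  rw [DD_zero, DD_zero, dd_cons, dd_cons]
  ring

private lemma TT_DD (p : ℝ) {N : ℕ} (F : (Fin (N + 1) → Bool) → ℝ) (j : Fin N) (ω : Fin N → Bool) :
    DD (TT p F) j ω = (1 - p) * DD F j.succ (Fin.cons false ω) + p * DD F j.succ (Fin.cons true ω) := by
  rw [DD_succ, DD_succ]
  unfold DD TT
  ring

private lemma dd_DD_succ (p : ℝ) {N : ℕ} (F : (Fin (N + 1) → Bool) → ℝ) (b : Bool) (j : Fin N)
    (ω : Fin N → Bool) :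
    DD (dd p F) j.succ (Fin.cons b ω) = DD F j.succ (Fin.cons b ω) - DD (TT p F) j ω := by
  rw [DD_succ, DD_succ]
  unfold DD
  simp only [dd_cons]
  ring

private lemma EE_DD0 (p : ℝ) {N : ℕ} (F : (Fin (N + 1) → Bool) → ℝ) :
    EE p (fun ω => DD (dd p F) 0 ω ^ 2) = EE p (fun ω => DD F 0 ω ^ 2) := by
  rw [EE_succ, EE_succ p (fun ω => DD F 0 ω ^ 2)]
  simp only [dd_DD_zero]

private lemma EE_DDs (p : ℝ) {N : ℕ} (F : (Fin (N + 1) → Bool) → ℝ) (j : Fin N) :
    EE p (fun ω => DD (dd p F) j.succ ω ^ 2) + EE p (fun ω => DD (TT p F) j ω ^ 2) =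
      EE p (fun ω => DD F j.succ ω ^ 2) := by
  rw [EE_succ, EE_succ p (fun ω => DD F j.succ ω ^ 2)]
  simp only [dd_DD_succ]
  rw [← EE_mul_left, ← EE_mul_left, ← EE_mul_left, ← EE_mul_left, ← EE_add, ← EE_add, ← EE_add]
  congr 1
  funext ω
  rw [TT_DD]
  ring

private lemma abs_d {p : ℝ} (h0 : 0 < p) (h1 : p < 1) {N : ℕ} (F : (Fin (N + 1) → Bool) → ℝ) :
    EE p (fun ω => |dd p F ω|) ≤ EE p (fun ω => |DD F 0 ω|) := by
  rw [EE_succ, EE_succ p (fun ω => |DD F 0 ω|), ← EE_mul_left, ← EE_mul_left, ← EE_mul_left,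
    ← EE_mul_left, ← EE_add, ← EE_add]
  apply EE_mono h0.le h1.le
  intro ω
  rw [dd_cons, dd_cons, DD_zero, DD_zero]
  have e1 : F (Fin.cons false ω) - TT p F ω = -(p * (F (Fin.cons true ω) - F (Fin.cons false ω))) := by
    unfold TT
    ring
  have e2 : F (Fin.cons true ω) - TT p F ω = (1 - p) * (F (Fin.cons true ω) - F (Fin.cons false ω)) := by
    unfold TT
    ring
  rw [e1, e2, abs_neg, abs_mul, abs_mul, abs_of_pos h0, abs_of_pos (by linarith : (0 : ℝ) < 1 - p)]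
  have h3 : 0 ≤ |F (Fin.cons true ω) - F (Fin.cons false ω)| := abs_nonneg _
  nlinarith [mul_nonneg (sq_nonneg (1 - 2 * p)) h3]

private lemma abs_T {p : ℝ} (h0 : 0 < p) (h1 : p < 1) {N : ℕ} (F : (Fin (N + 1) → Bool) → ℝ) (j : Fin N) :
    EE p (fun ω => |DD (TT p F) j ω|) ≤ EE p (fun ω => |DD F j.succ ω|) := by
  rw [EE_succ p (fun ω => |DD F j.succ ω|), ← EE_mul_left, ← EE_mul_left, ← EE_add]
  apply EE_mono h0.le h1.le
  intro ω
  rw [TT_DD]
  refine (abs_add_le _ _).trans ?_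
  rw [abs_mul, abs_mul, abs_of_pos h0, abs_of_pos (by linarith : (0 : ℝ) < 1 - p)]

/-- Module LLI. -/
theorem tLLI (hENL : StENL) (hLSI : StLSI) : Pool.Agent.Helper11.PV.StLLI := by
  intro p N
  induction N with
  | zero =>
    intro F s h0 h1 hs
    have hV : VV p F = 0 := by
      unfold VV
      rw [EE_zero, EE_zero]
      ring
    rw [hV]
    simp
  | succ N ih =>
    intro F s h0 h1 hs
    have hd1 := hENL p (N + 1) (dd p F) s h0 h1 hs
    have hd2 := hLSI p (N + 1) (dd p F) h0 h1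
    have hT := ih (TT p F) s h0 h1 hs
    rw [VV_succ]
    rw [Fin.sum_univ_succ] at hd2
    rw [Fin.sum_univ_succ, Fin.sum_univ_succ]
    rw [EE_DD0] at hd2
    have hsum : ∑ j : Fin N, EE p (fun ω => DD (dd p F) j.succ ω ^ 2) +
        ∑ j : Fin N, EE p (fun ω => DD (TT p F) j ω ^ 2) =
        ∑ j : Fin N, EE p (fun ω => DD F j.succ ω ^ 2) := by
      rw [← Finset.sum_add_distrib]
      exact Finset.sum_congr rfl fun j _ => EE_DDs p F j
    have ha : (EE p (fun ω => |dd p F ω|)) ^ 2 ≤ (EE p (fun ω => |DD F 0 ω|)) ^ 2 := by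
      have h3 : 0 ≤ EE p (fun ω => |dd p F ω|) := EE_nonneg h0.le h1.le fun ω => abs_nonneg _
      exact pow_le_pow_left₀ h3 (abs_d h0 h1 F) 2
    have hb : ∑ j : Fin N, (EE p (fun ω => |DD (TT p F) j ω|)) ^ 2 ≤
        ∑ j : Fin N, (EE p (fun ω => |DD F j.succ ω|)) ^ 2 := by
      apply Finset.sum_le_sum
      intro j _
      have h3 : 0 ≤ EE p (fun ω => |DD (TT p F) j ω|) := EE_nonneg h0.le h1.le fun ω => abs_nonneg _
      exact pow_le_pow_left₀ h3 (abs_T h0 h1 F j) 2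
    have ha' := mul_le_mul_of_nonneg_left ha hs.le
    have hb' := mul_le_mul_of_nonneg_left hb hs.le
    nlinarith [hd1, hd2, hT, hsum, ha', hb']

end Pool.Agent.Helper37.PV
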