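import Pool.Agent.Helper11.PV.St2

/-!
# Project PV, module MKV: Markov's inequality for the normalised variances
-/

set_option autoImplicit false

namespace Pool.Agent.Helper37.PV

open Finset Filter MeasureTheory Pool.Agent.Helper82.CN Pool.Agent.Helper11.PV

private lemma vn_nonneg' {p : ℝ} (h0 : 0 ≤ p) (h1 : p ≤ 1) (n : ℕ) : 0 ≤ vn p n := by
  unfold vn
  exact EE_nonneg h0 h1 fun ω => sq_nonneg _

private lemma term_nonneg {p : ℝ} (h0 : 0 ≤ p) (h1 : p ≤ 1) (n : ℕ) :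
    0 ≤ vn p n * (Real.log n ^ 3 / n) := by
  apply mul_nonneg (vn_nonneg' h0 h1 n)
  apply div_nonneg _ (Nat.cast_nonneg n)
  exact pow_nonneg (Real.log_natCast_nonneg n) 3

private lemma term_large {p C ε : ℝ} (hC : 0 < C) (hε : 0 < ε) (n : ℕ) (hn : 2 ≤ n)
    (h : √(C / ε) * (√(n : ℝ) / Real.log n ^ ((3 : ℝ) / 2)) < sn p n) :
    C / ε ≤ vn p n * (Real.log n ^ 3 / n) := by
  have hn' : (1 : ℝ) < n := by exact_mod_cast (by omega : 1 < n)
  have hn0 : (0 : ℝ) < n := by linarith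
  have hlog : 0 < Real.log n := Real.log_pos hn'
  have hCe : 0 < C / ε := div_pos hC hε
  unfold sn at h
  rw [Real.lt_sqrt (by positivity)] at h
  have e1 : (√(C / ε) * (√(n : ℝ) / Real.log n ^ ((3 : ℝ) / 2))) ^ 2 = C / ε * (n / Real.log n ^ 3) := by
    rw [mul_pow, div_pow, Real.sq_sqrt hCe.le, Real.sq_sqrt hn0.le]
    congr 2
    rw [← Real.rpow_natCast, ← Real.rpow_mul hlog.le, ← Real.rpow_natCast]
    norm_num
  rw [e1] at h
  have hl3 : 0 < Real.log n ^ 3 := by positivity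
  have h2 := mul_le_mul_of_nonneg_right h.le (div_pos hl3 hn0).le
  have e2 : C / ε * (n / Real.log n ^ 3) * (Real.log n ^ 3 / n) = C / ε := by
    field_simp
  rwa [e2] at h2

/-- Module MKV. -/
theorem tMKV : Pool.Agent.Helper11.PV.StMKV := by
  intro p C h0 h1 hC hfreq ε hε
  refine (hfreq.and_eventually (eventually_ge_atTop 1)).mono ?_
  rintro N ⟨hN, hN1⟩
  have hN0 : (0 : ℝ) < N := by exact_mod_cast hN1
  have hsum : ∑ n ∈ Icc 2 N, vn p n * (Real.log n ^ 3 / n) ≤ C * N := by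
    unfold hh at hN
    rwa [div_le_iff₀ hN0] at hN
  have hCe : 0 < C / ε := div_pos hC hε
  have h2 := Finset.card_nsmul_le_sum ((Icc 2 N).filter (fun n : ℕ =>
    √(C / ε) * (√(n : ℝ) / Real.log n ^ ((3 : ℝ) / 2)) < sn p n))
    (fun n : ℕ => vn p n * (Real.log n ^ 3 / n)) (C / ε) (by
      intro n hn
      rw [Finset.mem_filter, Finset.mem_Icc] at hn
      exact term_large hC hε n hn.1.1 hn.2)
  have h3 : ∑ n ∈ (Icc 2 N).filter (fun n : ℕ =>
      √(C / ε) * (√(n : ℝ) / Real.log n ^ ((3 : ℝ) / 2)) < sn p n), vn p n * (Real.log n ^ 3 / n) ≤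
      ∑ n ∈ Icc 2 N, vn p n * (Real.log n ^ 3 / n) :=
    Finset.sum_le_sum_of_subset_of_nonneg (Finset.filter_subset _ _)
      (fun n _ _ => term_nonneg h0 h1 n)
  rw [nsmul_eq_mul] at h2
  have h4 := (h2.trans h3).trans hsum
  have h5 : (((Icc 2 N).filter (fun n : ℕ =>
    √(C / ε) * (√(n : ℝ) / Real.log n ^ ((3 : ℝ) / 2)) < sn p n)).card : ℝ) * (C / ε) ≤
      (ε * N) * (C / ε) := by
    have e3 : (ε * N) * (C / ε) = C * N := by
      field_simp
    rw [e3]
    exact h4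
  exact le_of_mul_le_mul_right h5 hCe

end Pool.Agent.Helper37.PV
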